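import Pool.Agent.W619.X.Fin

/-! The Campana-Peternell conjecture for (log) canonical divisors on quotients of products of
curves. -/

set_option autoImplicit false
set_option linter.overlappingInstances false

universe u

open FF IntermediateField Pool.Agent.W619.PQ Pool.Agent.W619.PL Pool.Agent.W619.TW
  Pool.Agent.W619.X

namespace Pool.Agent.Results.MP_370cf3_ag.ProductQuotients

/-- Let `L` be the function field of a product of `n` curves `C i` with function fields `F i`, `G` a
finite group of automorphisms of `L` preserving each `F i`, `B i` a finite set of points of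
`C i / G`, `X` a projective manifold birational to the quotient of the product by `G` with morphisms
to the curves `C i / G`, and `D` the reduced preimage of the `B i`, a divisor with normal crossings.
(All `B i` may be empty: `D = 0`.) Assume `LogPosCond`, for instance that each `g ≠ 1` in `G` moves
at least `7` of the curves, or that each `g ≠ 1` moves at least `2` of the curves and each `C i / G`
is irrational or has at least `5` branch points. If `r (K_X + D) - A` is pseudo-effective for a
divisor `A` on `X` and `r ≥ 1`, then `κ (K_X + D) ≥ κ (A)`. -/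
theorem result {L : Type u} [Field L] [Algebra ℂ L] (n : ℕ) (hn : Algebra.trdeg ℂ L = n)
    (F : Fin n → IntermediateField ℂ L) (hF : ∀ i, IsFF ℂ (F i))
    (hsup : ⨆ i, F i = ⊤)
    (G : Subgroup (L ≃ₐ[ℂ] L)) [Finite G] (hst : ∀ i, ∀ g ∈ G, ∀ z ∈ F i, g z ∈ F i)
    (B : ∀ i, Set (Place ℂ ↥(F i ⊓ fixedField G))) (hB : ∀ i, (B i).Finite)
    (h : LogPosCond G F B) (r : ℕ) (hr : 1 ≤ r) (a : Place ℂ (fixedField G) → ℤ)
    (hps : IsPsefRest ℂ (fixedField G) n (QBd F G B) r a) (j : ℕ)
    (hA : DivKodGe ℂ (fixedField G) n a j) : KodGe ℂ (fixedField G) n (QBd F G B) j :=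
  cpL n hn F hF hsup G hst B hB h r hr a hps j hA

end Pool.Agent.Results.MP_370cf3_ag.ProductQuotients
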